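import Pool.Agent.SGK.Stmts

/-! # SGK row SUB: a new vertex `v` between the last vertex `z` and `ω` -/

noncomputable section

namespace Pool.Agent.SGK.H59

open Pool.Agent.SGE Pool.Agent.SGK

theorem sb_map_of_not_mem {V : Type} (ω v : V) (L : List V) (h : ω ∉ L) :
    L.map (sb ω v) = L := by
  conv_rhs => rw [← List.map_id L]
  refine List.map_congr_left fun u hu => ?_
  have hu2 : u ≠ ω := by
    rintro rfl
    exact h hu
  unfold sb
  rw [if_neg hu2]
  rfl

theorem sub (hCb : CbStmt) (hDet : DetStmt) : SubStmt := by
  intro V b ω v z D S₁ h₁ hvb hvω hvS T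
  induction T with
  | nil =>
    intro C₂ h _
    have e : C₂ = D ++ [z, ω] := hDet h h₁
    subst e
    have hn : (D ++ [z, ω]).Nodup := (hCb h₁).2.1
    have hωD : ω ∉ D := by
      intro hD
      have := (List.nodup_append.1 hn).2.2 ω hD ω (by simp)
      exact this rfl
    have hωz : z ≠ ω := by
      have := (List.nodup_append.1 hn).2.1
      simpa using this
    have e2 : (D ++ [z, ω]).map (sb ω v) ++ [ω] = D ++ z :: v :: ω :: [] := by
      rw [List.map_append, sb_map_of_not_mem ω v D hωD]
      simp [sb, hωz]
    rw [e2]
    exact Can.step (P := D) (Q := []) (mid := []) (p := z) (q := ω) h₁ hvb hvω hvS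
  | cons y T ih =>
    intro C₂ h hT
    obtain ⟨x, ℓ⟩ := y
    rw [List.cons_append] at h
    cases h with
    | @step P Q mid p q _ _ h ha hb hv =>
      have h2 := ih _ h (fun y hy => hT y (List.mem_cons_of_mem _ hy))
      have hx : sb ω v x = x := by
        unfold sb
        rw [if_neg hb]
      have h3 : Can b ω (P.map (sb ω v) ++ sb ω v p :: (mid.map (sb ω v) ++
          sb ω v q :: (Q.map (sb ω v) ++ [ω])))
          (T.map (fun y => (y.1, y.2.map (sb ω v))) ++ (v, [z, ω]) :: S₁) := by
        simpa using h2
      have h4 := Can.step (v := x) h3 ha hb (by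
        intro y hy
        rw [List.mem_append, List.mem_map, List.mem_cons] at hy
        rcases hy with ⟨y', hy', rfl⟩ | rfl | hy
        · exact hv y' (List.mem_append_left _ hy')
        · exact (hT _ List.mem_cons_self).symm
        · exact hv y (List.mem_append_right _ hy))
      simpa [hx] using h4

end Pool.Agent.SGK.H59
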